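import Pool.Agent.T2h12.SL.Fin

/-!
All irreducible components of the border variety of sums of powers of a general point of a secant
variety of a toric variety have saturated general points.  All definitions are in
`Pool/Agent/T2h12/SL/Defs.lean`.
-/

set_option autoImplicit false

open MvPolynomial BorderVSP

/-- Let `X` be a smooth projective toric variety, given by the data `D` of its Cox ring `S` (the
degrees of the variables in `Pic X` and the maximal cones, hence the irrelevant ideal `B`), and let
`v ∈ Pic X` be an ample class (for instance very ample).  For every `r` let `h r` be a function
`Pic X → ℕ` (for instance the Hilbert function `h_{r,X}` of `r` general points of `X`), and let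
`H r` be a scheme of finite type over `ℂ` that represents the multigraded Hilbert functor of the
homogeneous ideals of `S` with Hilbert function `h r`, that is, the Haiman–Sturmfels multigraded
Hilbert scheme.  Suppose, as in the setting of the problem, that
`Slip_r` (the closure of the set of the saturated ideals of `r` distinct points of `X` with Hilbert
function `h r`) is irreducible for all `r ≥ 1`.

Then for every `r ≥ 1` there is a homogeneous polynomial `f` on `T_v` whose nonvanishing set is
dense in the affine cone over the secant variety `σ_r(X)` (in the Zariski topology: every
polynomial that vanishes on it vanishes on the cone), such that for all `F` in this set, with the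
border rank `ρ` of `F`: every irreducible component `Z` of
`VSP(F, ρ) = {J ∈ Slip_ρ | J ⊆ Ann F}` has a saturated general point (a nonempty open
subset of `Z` consists of saturated ideals), and the general point of `Z` is not nonsaturated.

So the answer to Q1 is negative: for no `X`, `v` and `r` does the border VSP of a general point of
`σ_r(X)` have a component whose general point is nonsaturated, and in particular it never has
components of both kinds. -/
theorem Pool.Agent.Results.MP_02af42_ag.NoMixedComponents.result
    (D : CoxData) (v : D.A) (hv : D.IsAmple v) (h : ℕ → D.A → ℕ) (H : ∀ r, HilbScheme D (h r))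
    (hSlip : ∀ r, 1 ≤ r → IsIrreducible ((H r).Slip r)) (r : ℕ) (hr : 1 ≤ r) :
    ∃ (d : ℕ) (f : MvPolynomial (D.Mon v) ℂ), f.IsHomogeneous d ∧
      (∀ g : MvPolynomial (D.Mon v) ℂ,
        (∀ F ∈ CoxData.secant v r, eval F f ≠ 0 → eval F g = 0) →
        ∀ F ∈ CoxData.secant v r, eval F g = 0) ∧
      ∀ F ∈ CoxData.secant v r, eval F f ≠ 0 →
        ∀ Z : Set (H (CoxData.borderRank F)).Pts,
          (H (CoxData.borderRank F)).IsComponent
            ((H (CoxData.borderRank F)).VSP (CoxData.borderRank F) F) Z →
          (H (CoxData.borderRank F)).GenSaturated Z ∧
            ¬ (H (CoxData.borderRank F)).GenNonsaturated Z :=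
  BorderVSP.fin D v hv h H hSlip r hr
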